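import Pool.Agent.H804R3.Assemble

/-!
MP_ab9fb7_gt, Q1 (Dubins): the length separation between the condensed and the diffuse component.
-/

namespace Pool.Agent.Results.MP_ab9fb7_gt.LengthSeparation

open Pool.Agent.H804R3

/-- Whenever the space of Dubins curves from `(0, 1)` to `(q, exp (i θ₁))` of total turning `θ₁`
is disconnected, there are condensed and diffuse curves, the lengths of the condensed ones are
bounded, and `sup (condensed lengths) < 2π - |θ₁| ≤ inf (diffuse lengths)`; in particular
`m < M`. -/
theorem result (q : ℂ) (θ₁ : ℝ) (h : ¬ IsPreconnected (DubinsSpace q θ₁)) :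
    (condensedLengths q θ₁).Nonempty ∧ BddAbove (condensedLengths q θ₁) ∧
      (diffuseLengths q θ₁).Nonempty ∧
      sSup (condensedLengths q θ₁) < sInf (diffuseLengths q θ₁) ∧
      sSup (condensedLengths q θ₁) < 2 * Real.pi - |θ₁| ∧
      2 * Real.pi - |θ₁| ≤ sInf (diffuseLengths q θ₁) := by
  obtain ⟨h1, h2, h3, h4, h5⟩ := main_result h
  exact ⟨h1, h2, h3, h4.trans_le h5, h4, h5⟩

end Pool.Agent.Results.MP_ab9fb7_gt.LengthSeparation
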